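import Mathlib

namespace Pool.Agent.Results.MP_763eff_nt.Criterion

open Finset

/-- The Lucas sequence `U(P,Q)`. -/
def U (P Q : ℤ) : ℕ → ℤ
  | 0 => 0
  | 1 => 1
  | n + 2 => P * U P Q (n + 1) - Q * U P Q n

/-- The positive lcm of the terms `U j`, `j ∈ s`. -/
def lcmU (P Q : ℤ) (s : Finset ℕ) : ℕ := s.lcm fun j => (U P Q j).natAbs

/-- The `U`-binomial coefficient. -/
def binomU (P Q : ℤ) (n k : ℕ) : ℚ :=
  (∏ j ∈ Ioc (n - k) n, (U P Q j : ℚ)) / ∏ j ∈ Ioc 0 k, (U P Q j : ℚ)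

/-- The lcm-analogue of the `U`-binomial coefficient. -/
def lcmBinomU (P Q : ℤ) (n k : ℕ) : ℚ :=
  (lcmU P Q (Ioc (n - k) n) : ℚ) / (lcmU P Q (Ioc 0 k) : ℚ)

theorem U_add (P Q : ℤ) (m : ℕ) : ∀ n : ℕ,
    U P Q (m + n + 1) = U P Q (m + 1) * U P Q (n + 1) - Q * U P Q m * U P Q n
  | 0 => by simp [U]
  | 1 => by
    have : U P Q 2 = P := by simp [U]
    rw [show m + 1 + 1 = m + 2 from rfl, show 1 + 1 = 2 from rfl, this, U]
    simp [U]; ring
  | n + 2 => by
    have h0 := U_add P Q m n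
    have h1 := U_add P Q m (n + 1)
    have e1 : U P Q (m + (n + 2) + 1) = P * U P Q (m + (n + 1) + 1) - Q * U P Q (m + n + 1) := by
      rw [show m + (n + 2) + 1 = (m + n + 1) + 2 by ring, U]
      rfl
    have e2 : U P Q (n + 2 + 1) = P * U P Q (n + 1 + 1) - Q * U P Q (n + 1) := by
      rw [show n + 2 + 1 = (n + 1) + 2 by ring, U]
    have e3 : U P Q (n + 2) = P * U P Q (n + 1) - Q * U P Q n := by rw [U]
    have e4 : U P Q (n + 1 + 1) = U P Q (n + 2) := rfl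
    rw [e1, h0, h1, e2, e4, e3]
    ring

theorem cop (P Q : ℤ) (h : IsCoprime P Q) (r : ℕ) :
    IsCoprime (U P Q (r + 1)) Q ∧ IsCoprime (U P Q (r + 1)) (U P Q r) := by
  induction r with
  | zero => simp [U, isCoprime_one_left]
  | succ r ih =>
    have e : U P Q (r + 1 + 1) = P * U P Q (r + 1) - Q * U P Q r := by
      rw [show r + 1 + 1 = r + 2 from rfl, U]
    rw [e]
    constructor
    · have := (IsCoprime.mul_left h ih.1).add_mul_left_left (-(U P Q r))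
      rwa [show P * U P Q (r + 1) + Q * -(U P Q r) = P * U P Q (r + 1) - Q * U P Q r by ring] at this
    · have := ((IsCoprime.mul_left ih.1.symm ih.2.symm).neg_left).add_mul_left_left P
      rwa [show -(Q * U P Q r) + U P Q (r + 1) * P = P * U P Q (r + 1) - Q * U P Q r by ring] at this

theorem shift (P Q : ℤ) (h : IsCoprime P Q) (q : ℤ) (r s : ℕ) (hr : 1 ≤ r) (hq : q ∣ U P Q r) :
    q ∣ U P Q (r + s) ↔ q ∣ U P Q s := by
  obtain ⟨m, rfl⟩ : ∃ m, r = m + 1 := ⟨r - 1, by omega⟩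
  rw [show m + 1 + s = m + s + 1 by ring, U_add]
  constructor
  · intro h1
    have h2 : q ∣ Q * U P Q m * U P Q s := by
      have := dvd_sub (hq.mul_right (U P Q (s + 1))) h1
      simpa using this
    have h3 : IsCoprime q (Q * U P Q m) :=
      IsCoprime.of_isCoprime_of_dvd_left (IsCoprime.mul_right (cop P Q h m).1 (cop P Q h m).2) hq
    exact h3.dvd_of_dvd_mul_left h2
  · intro h1
    exact dvd_sub (hq.mul_right _) (h1.mul_left _)

theorem rank (S : ℕ → Prop) (h0 : S 0) (r : ℕ) (hr : 1 ≤ r) (hs : ∀ s, S (r + s) ↔ S s)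
    (hmin : ∀ j ∈ Ioo 0 r, ¬ S j) (j : ℕ) : S j ↔ r ∣ j := by
  induction j using Nat.strong_induction_on with
  | _ j ih =>
    by_cases hj : r ≤ j
    · obtain ⟨s, rfl⟩ : ∃ s, j = r + s := ⟨j - r, by omega⟩
      rw [hs, ih s (by omega)]
      simp
    · rcases Nat.eq_zero_or_pos j with rfl | hj0
      · simp [h0]
      · constructor
        · intro h; exact absurd h (hmin j (by simp; omega))
        · intro h; exact absurd (Nat.le_of_dvd hj0 h) hj

theorem count (S : ℕ → Prop) [DecidablePred S] (h0 : S 0)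
    (hs : ∀ r, 1 ≤ r → S r → ∀ s, S (r + s) ↔ S s) (k n : ℕ) (hkn : k ≤ n) :
    ((if 0 < ((Ioc (n - k) n).filter S).card then 1 else 0) + ((Ioc 0 k).filter S).card
      ≤ ((Ioc (n - k) n).filter S).card + (if 0 < ((Ioc 0 k).filter S).card then 1 else 0)) ∧
    (((if 0 < ((Ioc (n - k) n).filter S).card then 1 else 0) + ((Ioc 0 k).filter S).card
      = ((Ioc (n - k) n).filter S).card + (if 0 < ((Ioc 0 k).filter S).card then 1 else 0)) ↔
      ∀ d, 1 ≤ d → d ≤ k → S d → (∀ j ∈ Ioo 0 d, ¬ S j) → k % d ≤ n % d) := by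
  classical
  by_cases h : ∃ r, 1 ≤ r ∧ S r
  · obtain ⟨r, hr1, hrS, hmin⟩ : ∃ r, 1 ≤ r ∧ S r ∧ ∀ j ∈ Ioo 0 r, ¬ S j := by
      refine ⟨Nat.find h, (Nat.find_spec h).1, (Nat.find_spec h).2, fun j hj hS => ?_⟩
      rw [mem_Ioo] at hj
      exact Nat.find_min h hj.2 ⟨hj.1, hS⟩
    have hR := rank S h0 r hr1 (hs r hr1 hrS) hmin
    have hc : ∀ m, ((Ioc 0 m).filter S).card = m / r := by
      intro m
      rw [← Nat.Ioc_filter_dvd_card_eq_div]
      congr 1
      exact filter_congr fun x _ => hR x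
    have hW : ((Ioc (n - k) n).filter S).card + (n - k) / r = n / r := by
      rw [← hc, ← hc n, ← Ioc_union_Ioc_eq_Ioc (Nat.zero_le (n - k)) (Nat.sub_le n k), filter_union,
        card_union_of_disjoint, add_comm]
      apply disjoint_filter_filter
      rw [disjoint_left]
      intro x hx hx'
      rw [mem_Ioc] at hx hx'
      omega
    have hdiv : n / r = (n - k) / r + k / r + if r ≤ (n - k) % r + k % r then 1 else 0 := by
      rw [← Nat.add_div hr1, Nat.sub_add_cancel hkn]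
    have hmod : n % r = ((n - k) % r + k % r) % r := by
      rw [← Nat.add_mod, Nat.sub_add_cancel hkn]
    have ha := Nat.mod_lt (n - k) hr1
    have hb := Nat.mod_lt k hr1
    have hiff : (∀ d, 1 ≤ d → d ≤ k → S d → (∀ j ∈ Ioo 0 d, ¬ S j) → k % d ≤ n % d) ↔
        (r ≤ k → k % r ≤ n % r) := by
      constructor
      · intro H hk; exact H r hr1 hk hrS hmin
      · intro H d hd1 hdk hdS hdmin
        have : d = r := by
          rcases lt_trichotomy d r with h1 | h1 | h1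
          · exact absurd hdS (hmin d (by simp; omega))
          · exact h1
          · exact absurd hrS (hdmin r (by simp; omega))
        subst this
        exact H hdk
    rw [hiff, hc k]
    have hq : r ≤ k ↔ 0 < k / r := by
      rw [Nat.div_pos_iff]; omega
    rw [hq]
    by_cases hle : r ≤ (n - k) % r + k % r
    · rw [if_pos hle] at hdiv
      have hm2 : n % r = (n - k) % r + k % r - r := by
        rw [hmod, Nat.mod_eq_sub_mod hle, Nat.mod_eq_of_lt (by omega)]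
      generalize ((Ioc (n - k) n).filter S).card = w at *
      generalize k / r = u at *
      split_ifs <;> omega
    · rw [if_neg hle] at hdiv
      have hm2 : n % r = (n - k) % r + k % r := by
        rw [hmod, Nat.mod_eq_of_lt (by omega)]
      generalize ((Ioc (n - k) n).filter S).card = w at *
      generalize k / r = u at *
      split_ifs <;> omega
  · push Not at h
    have e : ∀ a b : ℕ, ((Ioc a b).filter S).card = 0 := by
      intro a b
      rw [card_eq_zero, filter_eq_empty_iff]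
      intro x hx
      rw [mem_Ioc] at hx
      exact h x (by omega)
    rw [e, e]
    refine ⟨by simp, ?_⟩
    simp only [lt_self_iff_false, if_false, true_iff]
    intro d hd _ hS
    exact absurd hS (h d hd)

theorem fact_eq (p : ℕ) (hp : p.Prime) (x : ℕ) (hx : x ≠ 0) (T : ℕ) (hT : x.factorization p ≤ T) :
    x.factorization p = ∑ t ∈ Icc 1 T, if p ^ t ∣ x then 1 else 0 := by
  rw [← card_filter]
  have : (Icc 1 T).filter (fun t => p ^ t ∣ x) = Icc 1 (x.factorization p) := by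
    ext t
    simp only [mem_filter, mem_Icc, hp.pow_dvd_iff_le_factorization hx]
    omega
  rw [this]; simp

theorem pow_dvd_lcm (a : ℕ → ℕ) (p t : ℕ) (hp : p.Prime) (ht : 1 ≤ t) (s : Finset ℕ)
    (ha : ∀ j ∈ s, a j ≠ 0) : p ^ t ∣ s.lcm a ↔ ∃ j ∈ s, p ^ t ∣ a j := by
  induction s using Finset.induction_on with
  | empty =>
    simp only [lcm_empty, Nat.dvd_one, notMem_empty, false_and, exists_false, iff_false]
    exact (Nat.one_lt_pow (by omega) hp.one_lt).ne'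
  | insert b s hb ih =>
    have ha' : ∀ j ∈ s, a j ≠ 0 := fun j hj => ha j (mem_insert_of_mem hj)
    have h1 : a b ≠ 0 := ha b (mem_insert_self _ _)
    have h2 : s.lcm a ≠ 0 := by
      rw [Ne, Finset.lcm_eq_zero_iff]
      rintro ⟨j, hj, h⟩
      exact ha' j hj h
    rw [lcm_insert, exists_mem_insert, ← ih ha', lcm_eq_nat_lcm,
      hp.pow_dvd_iff_le_factorization (Nat.lcm_ne_zero h1 h2),
      hp.pow_dvd_iff_le_factorization h1, hp.pow_dvd_iff_le_factorization h2,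
      Nat.factorization_lcm h1 h2, Finsupp.sup_apply, le_sup_iff]

theorem fact_prod (a : ℕ → ℕ) (p : ℕ) (hp : p.Prime) (s : Finset ℕ) (ha : ∀ j ∈ s, a j ≠ 0)
    (T : ℕ) (hT : (∏ j ∈ s, a j).factorization p ≤ T) :
    (∏ j ∈ s, a j).factorization p
      = ∑ t ∈ Icc 1 T, (s.filter fun j => p ^ t ∣ a j).card ∧
    (s.lcm a).factorization p
      = ∑ t ∈ Icc 1 T, if 0 < (s.filter fun j => p ^ t ∣ a j).card then 1 else 0 := by
  have h0 : (∏ j ∈ s, a j) ≠ 0 := prod_ne_zero_iff.mpr ha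
  have hle : ∀ x, x ∣ ∏ j ∈ s, a j → x.factorization p ≤ T := by
    intro x hx
    exact ((Nat.factorization_le_iff_dvd (ne_zero_of_dvd_ne_zero h0 hx) h0).mpr hx p).trans hT
  constructor
  · rw [Nat.factorization_prod ha, Finsupp.finsetSum_apply]
    simp only [card_filter]
    rw [sum_comm]
    exact sum_congr rfl fun j hj => fact_eq p hp _ (ha j hj) T (hle _ (dvd_prod_of_mem a hj))
  · have hd : s.lcm a ∣ ∏ j ∈ s, a j := Finset.lcm_dvd fun j hj => dvd_prod_of_mem a hj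
    rw [fact_eq p hp _ (ne_zero_of_dvd_ne_zero h0 hd) T (hle _ hd)]
    refine sum_congr rfl fun t ht => ?_
    rw [mem_Icc] at ht
    have : p ^ t ∣ s.lcm a ↔ 0 < (s.filter fun j => p ^ t ∣ a j).card := by
      rw [pow_dvd_lcm a p t hp ht.1 s ha, card_pos]
      simp [Finset.Nonempty]
    simp only [this]

theorem main (a : ℕ → ℕ) (h0 : a 0 = 0) (ha : ∀ j, 1 ≤ j → a j ≠ 0)
    (hs : ∀ q r, 1 ≤ r → q ∣ a r → ∀ s, q ∣ a (r + s) ↔ q ∣ a s) (k n : ℕ) (hkn : k ≤ n) :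
    (Ioc (n - k) n).lcm a * ∏ j ∈ Ioc 0 k, a j = (∏ j ∈ Ioc (n - k) n, a j) * (Ioc 0 k).lcm a ↔
      ∀ d, 1 ≤ d → d ≤ k → ¬ a d ∣ (Ioo 0 d).lcm a → k % d ≤ n % d := by
  have haW : ∀ j ∈ Ioc (n - k) n, a j ≠ 0 := fun j hj => ha j (by rw [mem_Ioc] at hj; omega)
  have haK : ∀ j ∈ Ioc 0 k, a j ≠ 0 := fun j hj => ha j (by rw [mem_Ioc] at hj; omega)
  have haO : ∀ d, ∀ j ∈ Ioo 0 d, a j ≠ 0 := fun d j hj => ha j (by rw [mem_Ioo] at hj; omega)
  have hA : (∏ j ∈ Ioc (n - k) n, a j) ≠ 0 := prod_ne_zero_iff.mpr haW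
  have hB : (∏ j ∈ Ioc 0 k, a j) ≠ 0 := prod_ne_zero_iff.mpr haK
  have hLA : (Ioc (n - k) n).lcm a ≠ 0 :=
    ne_zero_of_dvd_ne_zero hA (Finset.lcm_dvd fun j hj => dvd_prod_of_mem a hj)
  have hLB : (Ioc 0 k).lcm a ≠ 0 :=
    ne_zero_of_dvd_ne_zero hB (Finset.lcm_dvd fun j hj => dvd_prod_of_mem a hj)
  have key : ∀ p, p.Prime → ∀ T, (∏ j ∈ Ioc (n - k) n, a j).factorization p ≤ T →
      (∏ j ∈ Ioc 0 k, a j).factorization p ≤ T →
      ((((Ioc (n - k) n).lcm a * ∏ j ∈ Ioc 0 k, a j).factorization p =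
        ((∏ j ∈ Ioc (n - k) n, a j) * (Ioc 0 k).lcm a).factorization p) ↔
      ∀ t ∈ Icc 1 T, ∀ d, 1 ≤ d → d ≤ k → p ^ t ∣ a d → (∀ j ∈ Ioo 0 d, ¬ p ^ t ∣ a j) →
        k % d ≤ n % d) := by
    intro p hp T hT1 hT2
    obtain ⟨e1, e2⟩ := fact_prod a p hp _ haW T hT1
    obtain ⟨e3, e4⟩ := fact_prod a p hp _ haK T hT2
    have hc := fun t => count (fun j => p ^ t ∣ a j) (by simp [h0]) (hs (p ^ t)) k n hkn
    rw [Nat.factorization_mul hLA hB, Nat.factorization_mul hA hLB, Finsupp.add_apply,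
      Finsupp.add_apply, e1, e2, e3, e4, ← sum_add_distrib, ← sum_add_distrib,
      sum_eq_sum_iff_of_le fun t _ => (hc t).1]
    exact forall₂_congr fun t _ => (hc t).2
  constructor
  · intro h d hd1 hdk hnd
    rw [Nat.dvd_iff_prime_pow_dvd_dvd] at hnd
    push Not at hnd
    obtain ⟨p, t, hp, h1, h2⟩ := hnd
    have ht : 1 ≤ t := by
      rcases Nat.eq_zero_or_pos t with rfl | ht
      · simp at h2
      · exact ht
    rw [pow_dvd_lcm a p t hp ht _ (haO d)] at h2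
    push Not at h2
    exact (key p hp ((∏ j ∈ Ioc (n - k) n, a j).factorization p +
      (∏ j ∈ Ioc 0 k, a j).factorization p + t) (by omega) (by omega)).mp (by rw [h]) t
      (by rw [mem_Icc]; omega) d hd1 hdk h1 h2
  · intro h
    apply Nat.eq_of_factorization_eq (mul_ne_zero hLA hB) (mul_ne_zero hA hLB)
    intro p
    by_cases hp : p.Prime
    · apply (key p hp ((∏ j ∈ Ioc (n - k) n, a j).factorization p +
        (∏ j ∈ Ioc 0 k, a j).factorization p) (by omega) (by omega)).mpr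
      intro t ht d hd1 hdk h1 h2
      rw [mem_Icc] at ht
      apply h d hd1 hdk
      intro hdvd
      obtain ⟨j, hj, hj'⟩ := (pow_dvd_lcm a p t hp ht.1 _ (haO d)).mp (h1.trans hdvd)
      exact h2 j hj hj'
    · rw [Nat.factorization_eq_zero_of_not_prime _ hp, Nat.factorization_eq_zero_of_not_prime _ hp]

theorem general (P Q : ℤ) (hcop : IsCoprime P Q) (hU : ∀ j, 1 ≤ j → U P Q j ≠ 0)
    (k n : ℕ) (hkn : k ≤ n) :
    lcmBinomU P Q n k = binomU P Q n k ↔
      (0 < binomU P Q n k ∧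
        ∀ d, 1 ≤ d → d ≤ k → ¬ (U P Q d).natAbs ∣ lcmU P Q (Ioo 0 d) → k % d ≤ n % d) := by
  have ha : ∀ j, 1 ≤ j → (U P Q j).natAbs ≠ 0 := fun j hj => Int.natAbs_ne_zero.mpr (hU j hj)
  have hm := main (fun j => (U P Q j).natAbs) (by simp [U]) ha (by
    intro q r hr hq s
    simp only [← Int.natCast_dvd] at hq ⊢
    exact shift P Q hcop q r s hr hq) k n hkn
  unfold lcmU
  rw [← hm]
  have hB : (∏ j ∈ Ioc 0 k, (U P Q j).natAbs) ≠ 0 :=
    prod_ne_zero_iff.mpr fun j hj => ha j (by rw [mem_Ioc] at hj; omega)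
  have hA : (∏ j ∈ Ioc (n - k) n, (U P Q j).natAbs) ≠ 0 :=
    prod_ne_zero_iff.mpr fun j hj => ha j (by rw [mem_Ioc] at hj; omega)
  have hLA : lcmU P Q (Ioc (n - k) n) ≠ 0 :=
    ne_zero_of_dvd_ne_zero hA (Finset.lcm_dvd fun j hj => dvd_prod_of_mem _ hj)
  have hLB : lcmU P Q (Ioc 0 k) ≠ 0 :=
    ne_zero_of_dvd_ne_zero hB (Finset.lcm_dvd fun j hj => dvd_prod_of_mem _ hj)
  have habs : |binomU P Q n k| = ((∏ j ∈ Ioc (n - k) n, (U P Q j).natAbs : ℕ) : ℚ) /
      ((∏ j ∈ Ioc 0 k, (U P Q j).natAbs : ℕ) : ℚ) := by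
    unfold binomU
    rw [abs_div, abs_prod, abs_prod]
    simp [Nat.cast_natAbs]
  have hpos : 0 < lcmBinomU P Q n k := by
    unfold lcmBinomU
    exact div_pos (by exact_mod_cast Nat.pos_of_ne_zero hLA) (by exact_mod_cast Nat.pos_of_ne_zero hLB)
  have hiff : lcmBinomU P Q n k = |binomU P Q n k| ↔
      ((Ioc (n - k) n).lcm fun j => (U P Q j).natAbs) * ∏ j ∈ Ioc 0 k, (U P Q j).natAbs =
      (∏ j ∈ Ioc (n - k) n, (U P Q j).natAbs) * (Ioc 0 k).lcm fun j => (U P Q j).natAbs := by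
    rw [habs, lcmBinomU, div_eq_div_iff (by exact_mod_cast hLB) (by exact_mod_cast hB)]
    unfold lcmU
    exact_mod_cast Iff.rfl
  rw [← hiff]
  constructor
  · intro h
    have h1 : 0 < binomU P Q n k := h ▸ hpos
    exact ⟨h1, by rw [abs_of_pos h1, h]⟩
  · rintro ⟨h1, h⟩
    rw [h, abs_of_pos h1]

def cc (a : ℕ → ℕ) (e : ℕ) : ℕ := (Ioc 0 e).lcm a / (Ioo 0 e).lcm a

theorem cc_prod (a : ℕ → ℕ) (h0 : a 0 = 0) (ha : ∀ j, 1 ≤ j → a j ≠ 0)
    (hs : ∀ q r, 1 ≤ r → q ∣ a r → ∀ s, q ∣ a (r + s) ↔ q ∣ a s) (d : ℕ) (hd : 1 ≤ d) :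
    ∏ e ∈ d.divisors, cc a e = a d := by
  have haK : ∀ k, ∀ j ∈ Ioc 0 k, a j ≠ 0 := fun k j hj => ha j (by rw [mem_Ioc] at hj; omega)
  have haO : ∀ d, ∀ j ∈ Ioo 0 d, a j ≠ 0 := fun d j hj => ha j (by rw [mem_Ioo] at hj; omega)
  have hB : (∏ j ∈ Ioc 0 d, a j) ≠ 0 := prod_ne_zero_iff.mpr (haK d)
  have hmul : ∀ e, cc a e * (Ioo 0 e).lcm a = (Ioc 0 e).lcm a := fun e =>
    Nat.div_mul_cancel (Finset.lcm_mono Ioo_subset_Ioc_self)
  have hdv : ∀ e, e ≤ d → (Ioc 0 e).lcm a ∣ ∏ j ∈ Ioc 0 d, a j := fun e he =>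
    Finset.lcm_dvd fun j hj => dvd_prod_of_mem a (Ioc_subset_Ioc_right he hj)
  have hc0 : ∀ e ∈ d.divisors, cc a e ≠ 0 := by
    intro e he h
    have := hdv e (Nat.divisor_le he)
    rw [← hmul, h, zero_mul] at this
    exact hB (zero_dvd_iff.mp this)
  apply Nat.eq_of_factorization_eq (prod_ne_zero_iff.mpr hc0) (ha d hd)
  intro p
  by_cases hp : p.Prime
  swap
  · rw [Nat.factorization_eq_zero_of_not_prime _ hp, Nat.factorization_eq_zero_of_not_prime _ hp]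
  obtain ⟨T, hT⟩ : ∃ T, T = (∏ j ∈ Ioc 0 d, a j).factorization p := ⟨_, rfl⟩
  have hle : ∀ x, x ∣ ∏ j ∈ Ioc 0 d, a j →
      x.factorization p = ∑ t ∈ Icc 1 T, if p ^ t ∣ x then 1 else 0 := by
    intro x hx
    exact fact_eq p hp x (ne_zero_of_dvd_ne_zero hB hx) T
      (hT ▸ (Nat.factorization_le_iff_dvd (ne_zero_of_dvd_ne_zero hB hx) hB).mpr hx p)
  have hce : ∀ e ∈ d.divisors, (cc a e).factorization p =
      ∑ t ∈ Icc 1 T, if p ^ t ∣ a e ∧ ¬ p ^ t ∣ (Ioo 0 e).lcm a then 1 else 0 := by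
    intro e he
    have he1 : 0 < e := Nat.pos_of_mem_divisors he
    have d1 := hdv e (Nat.divisor_le he)
    have d2 : (Ioo 0 e).lcm a ∣ ∏ j ∈ Ioc 0 d, a j :=
      (Finset.lcm_mono Ioo_subset_Ioc_self).trans d1
    have h1 := congrArg (fun x : ℕ => x.factorization p) (hmul e)
    simp only [Nat.factorization_mul (hc0 e he) (ne_zero_of_dvd_ne_zero hB d2),
      Finsupp.add_apply] at h1
    rw [hle _ d1, hle _ d2] at h1
    have h2 : (∑ t ∈ Icc 1 T, if p ^ t ∣ (Ioc 0 e).lcm a then 1 else 0) =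
        (∑ t ∈ Icc 1 T, if p ^ t ∣ a e ∧ ¬ p ^ t ∣ (Ioo 0 e).lcm a then 1 else 0) +
        ∑ t ∈ Icc 1 T, if p ^ t ∣ (Ioo 0 e).lcm a then 1 else 0 := by
      rw [← sum_add_distrib]
      refine sum_congr rfl fun t ht => ?_
      rw [mem_Icc] at ht
      have : p ^ t ∣ (Ioc 0 e).lcm a ↔ p ^ t ∣ a e ∨ p ^ t ∣ (Ioo 0 e).lcm a := by
        rw [pow_dvd_lcm a p t hp ht.1 _ (haK e), pow_dvd_lcm a p t hp ht.1 _ (haO e),
          ← Ioo_insert_right he1, exists_mem_insert]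
      by_cases x1 : p ^ t ∣ a e <;> by_cases x2 : p ^ t ∣ (Ioo 0 e).lcm a <;> simp [this, x1, x2]
    omega
  rw [Nat.factorization_prod hc0, Finsupp.finsetSum_apply, sum_congr rfl hce, sum_comm,
    hle (a d) (dvd_prod_of_mem a (by rw [mem_Ioc]; omega))]
  refine sum_congr rfl fun t ht => ?_
  rw [mem_Icc] at ht
  have hr : ∀ e, 1 ≤ e → p ^ t ∣ a e → ¬ p ^ t ∣ (Ioo 0 e).lcm a → ∀ j, p ^ t ∣ a j ↔ e ∣ j := by
    intro e he h1 h2 j
    rw [pow_dvd_lcm a p t hp ht.1 _ (haO e)] at h2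
    push Not at h2
    exact rank (fun j => p ^ t ∣ a j) (by simp [h0]) e he (hs _ e he h1) h2 j
  by_cases hq : p ^ t ∣ a d
  · have h : ∃ r, 1 ≤ r ∧ p ^ t ∣ a r := ⟨d, hd, hq⟩
    obtain ⟨r, hr1, hrS, hmin⟩ : ∃ r, 1 ≤ r ∧ p ^ t ∣ a r ∧ ¬ p ^ t ∣ (Ioo 0 r).lcm a := by
      refine ⟨Nat.find h, (Nat.find_spec h).1, (Nat.find_spec h).2, ?_⟩
      rw [pow_dvd_lcm a p t hp ht.1 _ (haO _)]
      rintro ⟨j, hj, hS⟩
      rw [mem_Ioo] at hj
      exact Nat.find_min h hj.2 ⟨hj.1, hS⟩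
    rw [if_pos hq, sum_eq_single r, if_pos ⟨hrS, hmin⟩]
    · intro e he hne
      rw [if_neg]
      rintro ⟨x1, x2⟩
      exact hne (Nat.dvd_antisymm ((hr e (Nat.pos_of_mem_divisors he) x1 x2 r).mp hrS)
        ((hr r hr1 hrS hmin e).mp x1))
    · intro hn
      exact absurd (Nat.mem_divisors.mpr ⟨(hr r hr1 hrS hmin d).mp hq, by omega⟩) hn
  · rw [if_neg hq]
    refine sum_eq_zero fun e he => ?_
    rw [if_neg]
    rintro ⟨x1, x2⟩
    exact hq ((hr e (Nat.pos_of_mem_divisors he) x1 x2 d).mpr (Nat.dvd_of_mem_divisors he))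

theorem uniq (f g : ℕ → ℝ) (hf : ∀ e, 1 ≤ e → f e ≠ 0)
    (h : ∀ d, 1 ≤ d → ∏ e ∈ d.divisors, f e = ∏ e ∈ d.divisors, g e) (d : ℕ) :
    1 ≤ d → f d = g d := by
  induction d using Nat.strong_induction_on with
  | _ d ih =>
    intro hd
    have h1 := h d hd
    rw [← Nat.insert_self_properDivisors (by omega), prod_insert Nat.self_notMem_properDivisors,
      prod_insert Nat.self_notMem_properDivisors] at h1
    have h2 : ∏ e ∈ d.properDivisors, g e = ∏ e ∈ d.properDivisors, f e :=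
      prod_congr rfl fun e he =>
        (ih e (Nat.mem_properDivisors.mp he).2 (Nat.pos_of_mem_properDivisors he)).symm
    rw [h2] at h1
    exact mul_right_cancel₀
      (prod_ne_zero_iff.mpr fun e he => hf e (Nat.pos_of_mem_properDivisors he)) h1

theorem binet (P Q : ℤ) (α β : ℝ) (h1 : α + β = P) (h2 : α * β = Q) : ∀ n : ℕ,
    (α - β) * U P Q n = α ^ n - β ^ n
  | 0 => by simp [U]
  | 1 => by simp [U]
  | n + 2 => by
    have i0 := binet P Q α β h1 h2 n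
    have i1 := binet P Q α β h1 h2 (n + 1)
    rw [U]
    push_cast
    rw [← h1, ← h2]
    linear_combination (α + β) * i1 - α * β * i0

noncomputable def G (α β : ℝ) (e : ℕ) : ℝ := ∏ μ ∈ primitiveRoots e ℂ, ‖(α : ℂ) - μ * β‖

theorem G_prod (α β : ℝ) (d : ℕ) (hd : 1 ≤ d) :
    ∏ e ∈ d.divisors, G α β e = |α ^ d - β ^ d| := by
  classical
  have hz := Complex.isPrimitiveRoot_exp d (by omega)
  have h := hz.pow_sub_pow_eq_prod_sub_mul (α : ℂ) (β : ℂ) hd
  haveI : NeZero d := ⟨by omega⟩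
  rw [IsPrimitiveRoot.nthRoots_one_eq_biUnion_primitiveRoots,
    prod_biUnion fun k _ l _ hkl => IsPrimitiveRoot.disjoint hkl] at h
  have h' := congrArg norm h
  rw [norm_prod] at h'
  simp only [norm_prod] at h'
  unfold G
  rw [← h', ← Real.norm_eq_abs, ← Complex.norm_real]
  push_cast
  rfl

theorem G_gt (α β : ℝ) (h0 : α * β ≠ 0) (h1 : 1 ≤ (α - β) ^ 2) (h2 : 1 ≤ (α + β) ^ 2) (e : ℕ)
    (he : 3 ≤ e) : 1 < G α β e := by
  have hne : (primitiveRoots e ℂ).Nonempty :=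
    ⟨_, (mem_primitiveRoots (by omega)).mpr (Complex.isPrimitiveRoot_exp e (by omega))⟩
  have := Finset.prod_lt_prod_of_nonempty (f := fun _ => (1 : ℝ))
    (g := fun μ : ℂ => ‖(α : ℂ) - μ * β‖) (s := primitiveRoots e ℂ) (fun _ _ => one_pos) ?_ hne
  · simpa [G] using this
  intro μ hμ
  have hμ' := (mem_primitiveRoots (by omega)).mp hμ
  have hn : μ.re ^ 2 + μ.im ^ 2 = 1 := by
    have := hμ'.norm'_eq_one (by omega)
    have h := Complex.sq_norm μ
    rw [this, Complex.normSq_apply] at h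
    linarith
  have him : μ.im ≠ 0 := by
    intro h
    have : μ ^ 2 = 1 := by
      apply Complex.ext
      · simp [pow_two, h]; nlinarith
      · simp [pow_two, h]
    have := Nat.le_of_dvd (by norm_num) (hμ'.dvd_of_pow_eq_one 2 this)
    omega
  have hre : μ.re ^ 2 < 1 := by have := sq_pos_of_ne_zero him; linarith
  have hr1 : μ.re < 1 := by nlinarith
  have hr2 : -1 < μ.re := by nlinarith
  have hsq : ‖(α : ℂ) - μ * β‖ ^ 2 = α ^ 2 + β ^ 2 - 2 * (α * β) * μ.re := by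
    rw [Complex.sq_norm, Complex.normSq_apply]
    simp
    linear_combination β ^ 2 * hn
  have : 1 < ‖(α : ℂ) - μ * β‖ ^ 2 := by
    rw [hsq]
    rcases lt_or_gt_of_ne h0 with h | h
    · nlinarith [mul_pos (neg_pos.mpr h) (by linarith : 0 < μ.re + 1)]
    · nlinarith [mul_pos h (by linarith : 0 < 1 - μ.re)]
  exact (one_lt_sq_iff₀ (norm_nonneg _)).mp this

theorem roots (P Q : ℤ) (hD : 0 < P ^ 2 - 4 * Q) :
    ∃ α β : ℝ, α + β = P ∧ α * β = Q ∧ 1 ≤ α - β := by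
  have h1 : (1 : ℝ) ≤ (P : ℝ) ^ 2 - 4 * Q := by exact_mod_cast hD
  have h2 := Real.sq_sqrt (show (0 : ℝ) ≤ (P : ℝ) ^ 2 - 4 * Q by linarith)
  have h3 : 1 ≤ Real.sqrt ((P : ℝ) ^ 2 - 4 * Q) := Real.one_le_sqrt.mpr h1
  refine ⟨(P + Real.sqrt ((P : ℝ) ^ 2 - 4 * Q)) / 2, (P - Real.sqrt ((P : ℝ) ^ 2 - 4 * Q)) / 2,
    by ring, by linear_combination (-1 / 4 : ℝ) * h2, by linarith⟩

theorem not_exc (P Q : ℤ) (hP : P ≠ 0) (hQ : Q ≠ 0) (hcop : IsCoprime P Q)
    (hU : ∀ j, 1 ≤ j → U P Q j ≠ 0) (hD : 0 < P ^ 2 - 4 * Q) (d : ℕ) (hd : 3 ≤ d) :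
    ¬ (U P Q d).natAbs ∣ lcmU P Q (Ioo 0 d) := by
  obtain ⟨α, β, h1, h2, h3⟩ := roots P Q hD
  have ha : ∀ j, 1 ≤ j → (U P Q j).natAbs ≠ 0 := fun j hj => Int.natAbs_ne_zero.mpr (hU j hj)
  have hc := cc_prod (fun j => (U P Q j).natAbs) (by simp [U]) ha (by
    intro q r hr hq s
    simp only [← Int.natCast_dvd] at hq ⊢
    exact shift P Q hcop q r s hr hq)
  have hc0 : ∀ e, 1 ≤ e → cc (fun j => (U P Q j).natAbs) e ≠ 0 := by
    intro e he h
    apply ha e he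
    rw [← hc e he]
    exact prod_eq_zero (Nat.mem_divisors_self e (by omega)) h
  have hu := uniq (fun e => (cc (fun j => (U P Q j).natAbs) e : ℝ) * if e = 1 then α - β else 1)
    (G α β) (by
      intro e he
      apply mul_ne_zero (by exact_mod_cast hc0 e he)
      split_ifs
      · linarith
      · exact one_ne_zero) (by
      intro e he
      rw [prod_mul_distrib, prod_ite_eq', if_pos (Nat.one_mem_divisors.mpr (by omega)),
        ← Nat.cast_prod, hc e he, G_prod α β e he, ← binet P Q α β h1 h2 e, abs_mul,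
        abs_of_pos (by linarith : 0 < α - β), Nat.cast_natAbs, Int.cast_abs, mul_comm]) d (by omega)
  have hP1 : (1 : ℝ) ≤ (P : ℝ) ^ 2 := by
    have : 1 ≤ P ^ 2 := Int.add_one_le_of_lt (sq_pos_of_ne_zero hP)
    exact_mod_cast this
  have hg := G_gt α β (by rw [h2]; exact_mod_cast hQ) (by nlinarith) (by rw [h1]; exact hP1) d hd
  intro hdvd
  simp only [if_neg (show d ≠ 1 by omega), mul_one] at hu
  rw [← hu] at hg
  have hL : (Ioc 0 d).lcm (fun j => (U P Q j).natAbs) = (Ioo 0 d).lcm (fun j => (U P Q j).natAbs) := by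
    apply Nat.dvd_antisymm _ (Finset.lcm_mono Ioo_subset_Ioc_self)
    rw [← Ioo_insert_right (show 0 < d by omega), lcm_insert]
    exact _root_.lcm_dvd hdvd dvd_rfl
  have : cc (fun j => (U P Q j).natAbs) d ≤ 1 := by
    unfold cc
    rw [hL]
    exact Nat.div_le_of_le_mul (by omega)
  have h' : (cc (fun j => (U P Q j).natAbs) d : ℝ) ≤ 1 := by exact_mod_cast this
  linarith

theorem U_neg (P Q : ℤ) : ∀ n : ℕ, U (-P) Q n = (-1) ^ (n + 1) * U P Q n
  | 0 => by simp [U]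
  | 1 => by simp [U]
  | n + 2 => by
    rw [U, U, U_neg P Q n, U_neg P Q (n + 1)]
    ring

theorem U_pos (P Q : ℤ) (hP : 0 < P) (hD : 0 < P ^ 2 - 4 * Q) (j : ℕ) (hj : 1 ≤ j) :
    0 < U P Q j := by
  obtain ⟨α, β, h1, h2, h3⟩ := roots P Q hD
  have hb := binet P Q α β h1 h2 j
  have hP' : (0 : ℝ) < P := by exact_mod_cast hP
  have h4 : |β| < α := abs_lt.mpr ⟨by linarith, by linarith⟩
  have h5 : β ^ j < α ^ j :=
    (le_abs_self _).trans_lt (by rw [abs_pow]; exact pow_lt_pow_left₀ h4 (abs_nonneg _) (by omega))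
  have h6 : (0 : ℝ) < (α - β) * U P Q j := by linarith
  have h7 : (0 : ℝ) < U P Q j := (mul_pos_iff_of_pos_left (by linarith)).mp h6
  exact_mod_cast h7

theorem binom_pos (P Q : ℤ) (hP : 0 < P) (hD : 0 < P ^ 2 - 4 * Q) (n k : ℕ) :
    0 < binomU P Q n k := by
  unfold binomU
  apply div_pos <;> apply prod_pos <;> intro j hj <;> rw [mem_Ioc] at hj <;>
    exact_mod_cast U_pos P Q hP hD j (by omega)

theorem binom_neg (P Q : ℤ) (n k : ℕ) (hkn : k ≤ n) :
    binomU (-P) Q n k = (-1) ^ (k * (n - k)) * binomU P Q n k := by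
  unfold binomU
  simp only [U_neg]
  push_cast
  rw [prod_mul_distrib, prod_mul_distrib]
  have h : ∏ j ∈ Ioc (n - k) n, (-1 : ℚ) ^ (j + 1)
      = (-1) ^ (k * (n - k)) * ∏ j ∈ Ioc 0 k, (-1 : ℚ) ^ (j + 1) := by
    have e := Finset.map_add_right_Ioc 0 k (n - k)
    rw [zero_add, show k + (n - k) = n by omega] at e
    rw [← e, prod_map]
    simp only [addRightEmbedding_apply]
    have : ∀ j ∈ Ioc 0 k, (-1 : ℚ) ^ (j + (n - k) + 1) = (-1) ^ (n - k) * (-1) ^ (j + 1) := by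
      intro j _; ring
    rw [prod_congr rfl this, prod_mul_distrib, prod_const, ← pow_mul, Nat.card_Ioc, Nat.sub_zero,
      mul_comm (n - k) k]
  have h0 : (∏ j ∈ Ioc 0 k, (-1 : ℚ) ^ (j + 1)) ≠ 0 :=
    prod_ne_zero_iff.mpr fun j _ => pow_ne_zero _ (by norm_num)
  rw [h, mul_assoc, mul_div_assoc, mul_div_mul_left _ _ h0]

theorem result (P Q : ℤ) (hP : P ≠ 0) (hQ : Q ≠ 0) (hcop : IsCoprime P Q)
    (hU : ∀ j, 1 ≤ j → U P Q j ≠ 0) (k n : ℕ) (hkn : k ≤ n) :
    (lcmBinomU P Q n k = binomU P Q n k ↔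
      (0 < binomU P Q n k ∧
        ∀ d, 1 ≤ d → d ≤ k → ¬ (U P Q d).natAbs ∣ lcmU P Q (Ioo 0 d) → k % d ≤ n % d)) ∧
    (0 < P ^ 2 - 4 * Q →
      (lcmBinomU P Q n k = binomU P Q n k ↔
        ((0 < P ∨ Even (k * (n - k))) ∧
          ∀ d, 2 ≤ d → d ≤ k → (d = 2 → P.natAbs ≠ 1) → k % d ≤ n % d))) := by
  refine ⟨general P Q hcop hU k n hkn, fun hD => ?_⟩
  rw [general P Q hcop hU k n hkn]
  have h2 : (U P Q 2).natAbs ∣ lcmU P Q (Ioo 0 2) ↔ P.natAbs = 1 := by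
    have : Ioo 0 2 = ({1} : Finset ℕ) := by decide
    unfold lcmU
    rw [this]
    simp [U]
  apply and_congr
  · rcases lt_or_gt_of_ne hP with h | h
    · have e := binom_neg (-P) Q n k hkn
      rw [neg_neg] at e
      have hp := binom_pos (-P) Q (by omega) (by rw [neg_sq]; exact hD) n k
      rw [e]
      rcases Nat.even_or_odd (k * (n - k)) with h' | h'
      · rw [h'.neg_one_pow, one_mul]
        exact ⟨fun _ => Or.inr h', fun _ => hp⟩
      · rw [h'.neg_one_pow]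
        constructor
        · intro x; linarith
        · rintro (x | x)
          · omega
          · exact absurd x (Nat.not_even_iff_odd.mpr h')
    · exact ⟨fun _ => Or.inl h, fun _ => binom_pos P Q h hD n k⟩
  · constructor
    · intro H d hd hdk hx
      apply H d (by omega) hdk
      rcases Nat.lt_or_ge d 3 with h | h
      · obtain rfl : d = 2 := by omega
        rw [h2]; exact hx rfl
      · exact not_exc P Q hP hQ hcop hU hD d h
    · intro H d hd hdk hx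
      rcases Nat.lt_or_ge d 2 with h | h
      · obtain rfl : d = 1 := by omega
        simp [Nat.mod_one]
      · apply H d h hdk
        rintro rfl
        rwa [h2] at hx

end Pool.Agent.Results.MP_763eff_nt.Criterion
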